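import Pool.Agent.MHP.StmtsS

/-!
# MHP, row SPC: edges in a set with `h` vertices in different components
-/

set_option autoImplicit false

open scoped Classical

namespace Pool.Agent.MHP.H60

open Pool.Agent.HMT Pool.Agent.MHP

/-- edges with both ends in `X` -/
def inn {U : Type} (H : SimpleGraph U) (X : Set U) : Set (Sym2 U) :=
  {e | e ∈ H.edgeSet ∧ ∀ v ∈ e, v ∈ X}

theorem card_ind {U : Type} (H : SimpleGraph U) (X : Set U) :
    Nat.card (H.induce X).edgeSet = (inn H X).ncard := by
  have hinj : Function.Injective (Sym2.map (Subtype.val : X → U)) :=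
    Sym2.map.injective Subtype.val_injective
  have himg : Sym2.map (Subtype.val : X → U) '' (H.induce X).edgeSet = inn H X := by
    ext e
    constructor
    · rintro ⟨e', he', rfl⟩
      induction e' using Sym2.ind with
      | _ a b =>
        rw [SimpleGraph.mem_edgeSet] at he'
        refine ⟨?_, ?_⟩
        · rw [Sym2.map_mk, SimpleGraph.mem_edgeSet]
          exact he'
        · intro v hv
          rw [Sym2.map_mk] at hv
          rcases Sym2.mem_iff.1 hv with rfl | rfl
          · exact a.2
          · exact b.2
    · rintro ⟨he, hv⟩
      induction e using Sym2.ind with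
      | _ a b =>
        refine ⟨s(⟨a, hv a (Sym2.mem_mk_left a b)⟩, ⟨b, hv b (Sym2.mem_mk_right a b)⟩), ?_, ?_⟩
        · rw [SimpleGraph.mem_edgeSet] at he ⊢
          exact he
        · rw [Sym2.map_mk]
  rw [← himg, Set.ncard_image_of_injective _ hinj, Nat.card_coe_set_eq]

theorem spc : SpcStmt := by
  intro J _ g U _ ρ H hρ hX X S
  have hinj : Function.Injective ρ := fun a b h => hρ a b (h ▸ SimpleGraph.Reachable.refl _)
  induction S using Finset.induction_on generalizing X with
  | empty =>
    intro _
    rcases X.eq_empty_or_nonempty with h | h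
    · have : inn H X = ∅ := by
        ext e
        constructor
        · rintro ⟨_, h2⟩
          induction e using Sym2.ind with
          | _ a b =>
            have := h2 a (Sym2.mem_mk_left a b)
            rw [h] at this
            exact this
        · intro he
          exact absurd he (Set.notMem_empty _)
      rw [card_ind, this, Set.ncard_empty]
      simp
    · refine (hX X h).trans ?_
      apply Nat.mul_le_mul_left
      simp
  | insert j S hj ih =>
    intro hS
    have hjX : ρ j ∈ X := hS j (Finset.mem_insert_self _ _)
    obtain ⟨A, hA⟩ : ∃ A : Set U, A = {u | u ∈ X ∧ H.Reachable (ρ j) u} := ⟨_, rfl⟩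
    have hAX : A ⊆ X := by
      rw [hA]
      exact fun u hu => hu.1
    have hjA : ρ j ∈ A := by
      rw [hA]
      exact ⟨hjX, SimpleGraph.Reachable.refl _⟩
    have hSB : ∀ k ∈ S, ρ k ∈ X \ A := by
      intro k hk
      refine ⟨hS k (Finset.mem_insert_of_mem hk), ?_⟩
      intro h
      rw [hA] at h
      have : j = k := hρ j k h.2
      exact hj (this ▸ hk)
    have h1 := ih (X \ A) hSB
    have h2 := hX A ⟨_, hjA⟩
    have hedge : (inn H X).ncard = (inn H A).ncard + (inn H (X \ A)).ncard := by
      rw [← Set.ncard_union_eq ?_ (Set.toFinite _) (Set.toFinite _)]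
      · congr 1
        ext e
        constructor
        · rintro ⟨he, hv⟩
          induction e using Sym2.ind with
          | _ a b =>
            rw [SimpleGraph.mem_edgeSet] at he
            have ha := hv a (Sym2.mem_mk_left a b)
            have hb := hv b (Sym2.mem_mk_right a b)
            by_cases haA : a ∈ A
            · left
              refine ⟨he, ?_⟩
              intro v hv'
              rcases Sym2.mem_iff.1 hv' with rfl | rfl
              · exact haA
              · rw [hA] at haA ⊢
                exact ⟨hb, haA.2.trans he.reachable⟩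
            · right
              refine ⟨he, ?_⟩
              intro v hv'
              rcases Sym2.mem_iff.1 hv' with rfl | rfl
              · exact ⟨ha, haA⟩
              · refine ⟨hb, fun hbA => haA ?_⟩
                rw [hA] at hbA ⊢
                exact ⟨ha, hbA.2.trans he.symm.reachable⟩
        · rintro (⟨he, hv⟩ | ⟨he, hv⟩)
          · exact ⟨he, fun v h => hAX (hv v h)⟩
          · exact ⟨he, fun v h => (hv v h).1⟩
      · rw [Set.disjoint_left]
        rintro e ⟨_, hv⟩ ⟨_, hv'⟩
        induction e using Sym2.ind with
        | _ a b => exact (hv' a (Sym2.mem_mk_left a b)).2 (hv a (Sym2.mem_mk_left a b))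
    have hcard : X.ncard = A.ncard + (X \ A).ncard := by
      have := Set.ncard_sdiff_add_ncard_of_subset hAX (Set.toFinite X)
      omega
    have hSc : S.card ≤ (X \ A).ncard := by
      have e1 : (S.image ρ).card = S.card := Finset.card_image_of_injective _ hinj
      have e2 : ((S.image ρ : Finset U) : Set U).ncard = (S.image ρ).card :=
        Set.ncard_coe_finset _
      rw [← e1, ← e2]
      apply Set.ncard_le_ncard _ (Set.toFinite _)
      intro u hu
      rw [Finset.mem_coe, Finset.mem_image] at hu
      obtain ⟨k, hk, rfl⟩ := hu
      exact hSB k hk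
    have hA1 : 1 ≤ A.ncard := by
      rw [Nat.one_le_iff_ne_zero]
      intro h0
      rw [Set.ncard_eq_zero (Set.toFinite _)] at h0
      rw [h0] at hjA
      exact hjA
    rw [card_ind] at h1 h2 ⊢
    rw [Nat.card_coe_set_eq] at h1 h2 ⊢
    rw [Finset.card_insert_of_notMem hj, hedge, hcard, Nat.mul_add]
    have e3 : A.ncard + (X \ A).ncard - (S.card + 1) =
        (A.ncard - 1) + ((X \ A).ncard - S.card) := by omega
    rw [e3, Nat.mul_add]
    exact Nat.add_le_add h2 h1

end Pool.Agent.MHP.H60
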