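import Pool.Agent.MHP.Stmts

/-!
# MHP, row EXC: the exchange of the hubs `j0` and `j`
-/

set_option autoImplicit false

namespace Pool.Agent.MHP.H60

open Pool.Agent.HMT Pool.Agent.MHP

theorem piso_symm {A B : PG} (h : PIso A B) : PIso B A := by
  obtain ⟨φ, hφ⟩ := h
  exact ⟨φ.symm, by rw [← hφ]; exact φ.symm_apply_apply _⟩

theorem piso_trans {A B C : PG} (h : PIso A B) (h' : PIso B C) : PIso A C := by
  obtain ⟨φ, hφ⟩ := h
  obtain ⟨ψ, hψ⟩ := h'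
  refine ⟨φ.trans ψ, ?_⟩
  show ψ (φ A.r) = C.r
  rw [hφ, hψ]

theorem exc (h1 : CswStmt) (h2 : CmpStmt) : ExcStmt := by
  intro J _ _ U _ ρ H j0 j hj hiso hρ A hA
  have hinj : Function.Injective ρ := fun a b h => hρ a b (h ▸ SimpleGraph.Reachable.refl _)
  obtain ⟨c1, c2, c3, _⟩ := h2 U A.V H (ρ j0) A.G A.r hiso
  have hne : ρ j ≠ ρ j0 := fun h => hj (hinj h)
  have hab : PIso (PG.mk (U ⊕ {v : A.V // v ≠ A.r}) (glue H (ρ j0) A.G A.r)
        (Sum.inl (ρ j0))).comp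
      (PG.mk (U ⊕ {v : A.V // v ≠ A.r}) (glue H (ρ j0) A.G A.r) (Sum.inl (ρ j))).comp :=
    piso_trans c1 (piso_trans hA (piso_symm (c2 (ρ j) hne)))
  obtain ⟨η, e1, e2, e3⟩ := h1 (U ⊕ {v : A.V // v ≠ A.r}) (glue H (ρ j0) A.G A.r)
    (Sum.inl (ρ j0)) (Sum.inl (ρ j)) (fun h => hj (hρ _ _ ((c3 _ _).1 h)).symm) hab
  refine ⟨η, fun i => ?_⟩
  by_cases hi0 : i = j0
  · rw [hi0, Equiv.swap_apply_left]
    exact e1
  · by_cases hi1 : i = j
    · rw [hi1, Equiv.swap_apply_right]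
      exact e2
    · rw [Equiv.swap_apply_of_ne_of_ne hi0 hi1]
      apply e3
      · intro h
        exact hi0 (hρ _ _ ((c3 _ _).1 h)).symm
      · intro h
        exact hi1 (hρ _ _ ((c3 _ _).1 h)).symm

end Pool.Agent.MHP.H60
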